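import Mathlib

/-!
# The polarised Pfaffian

For bilinear forms `B m`, `m : ι`, on a real vector space `V` and a family `e` of vectors indexed
by `ι × Fin 2`, the number `pf e B` is, up to a positive constant when the `B m` are alternating,
the value of `B₁ ∧ ... ∧ B_k` on `e`.
-/

open Equiv Finset

namespace Pool.Agent.Y519.AS

variable {ι : Type*} [Fintype ι] [DecidableEq ι] {V : Type*} [AddCommGroup V] [Module ℝ V]

/-- the polarised Pfaffian -/
noncomputable def pf (e : ι × Fin 2 → V) (B : ι → V →ₗ[ℝ] V →ₗ[ℝ] ℝ) : ℝ :=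
  ∑ σ : Perm (ι × Fin 2), ((Perm.sign σ : ℤ) : ℝ) * ∏ m, B m (e (σ (m, 0))) (e (σ (m, 1)))

/-- evaluation of bilinear forms -/
noncomputable def evB (u w : V) : (V →ₗ[ℝ] V →ₗ[ℝ] ℝ) →ₗ[ℝ] ℝ where
  toFun B := B u w
  map_add' _ _ := rfl
  map_smul' _ _ := rfl

@[simp] theorem evB_apply (u w : V) (B : V →ₗ[ℝ] V →ₗ[ℝ] ℝ) : evB u w B = B u w := rfl

/-- `pf e` as a multilinear map -/
noncomputable def pfM (e : ι × Fin 2 → V) :
    MultilinearMap ℝ (fun _ : ι => V →ₗ[ℝ] V →ₗ[ℝ] ℝ) ℝ :=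
  ∑ σ : Perm (ι × Fin 2), ((Perm.sign σ : ℤ) : ℝ) •
    (MultilinearMap.mkPiAlgebra ℝ ι ℝ).compLinearMap
      (fun m => evB (e (σ (m, 0))) (e (σ (m, 1))))

theorem pfM_apply (e : ι × Fin 2 → V) (B : ι → V →ₗ[ℝ] V →ₗ[ℝ] ℝ) : pfM e B = pf e B := by
  simp [pfM, pf]

theorem pf_update_add (e : ι × Fin 2 → V) (B : ι → V →ₗ[ℝ] V →ₗ[ℝ] ℝ) (m : ι)
    (C D : V →ₗ[ℝ] V →ₗ[ℝ] ℝ) :
    pf e (Function.update B m (C + D)) = pf e (Function.update B m C)
      + pf e (Function.update B m D) := by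
  simp only [← pfM_apply]
  exact (pfM e).map_update_add B m C D

theorem pf_update_smul (e : ι × Fin 2 → V) (B : ι → V →ₗ[ℝ] V →ₗ[ℝ] ℝ) (m : ι) (c : ℝ)
    (C : V →ₗ[ℝ] V →ₗ[ℝ] ℝ) :
    pf e (Function.update B m (c • C)) = c * pf e (Function.update B m C) := by
  simp only [← pfM_apply]
  exact (pfM e).map_update_smul B m c C

theorem pf_update_sub (e : ι × Fin 2 → V) (B : ι → V →ₗ[ℝ] V →ₗ[ℝ] ℝ) (m : ι)
    (C D : V →ₗ[ℝ] V →ₗ[ℝ] ℝ) :
    pf e (Function.update B m (C - D)) = pf e (Function.update B m C)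
      - pf e (Function.update B m D) := by
  simp only [← pfM_apply]
  exact (pfM e).map_update_sub B m C D

theorem pf_update_flip (e : ι × Fin 2 → V) (B : ι → V →ₗ[ℝ] V →ₗ[ℝ] ℝ) (m : ι)
    (C : V →ₗ[ℝ] V →ₗ[ℝ] ℝ) :
    pf e (Function.update B m C.flip) = - pf e (Function.update B m C) := by
  unfold pf
  rw [← Finset.sum_neg_distrib]
  refine Fintype.sum_equiv (Equiv.mulRight (swap (m, (0 : Fin 2)) (m, 1))) _ _ ?_
  intro σ
  simp only [Equiv.coe_mulRight]
  have h01 : ((m, (0 : Fin 2)) : ι × Fin 2) ≠ (m, 1) := by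
    intro h
    have h' : (0 : Fin 2) = 1 := congrArg Prod.snd h
    exact absurd h' (by decide)
  rw [Perm.sign_mul, Perm.sign_swap h01]
  have hprod : ∏ l, (Function.update B m C.flip) l (e (σ (l, 0))) (e (σ (l, 1)))
      = ∏ l, (Function.update B m C) l (e ((σ * swap (m, (0 : Fin 2)) (m, 1)) (l, 0)))
        (e ((σ * swap (m, (0 : Fin 2)) (m, 1)) (l, 1))) := by
    refine Finset.prod_congr rfl fun l _ => ?_
    by_cases hl : l = m
    · subst hl
      simp [Perm.mul_apply]
    · have h1 : ((l, (0 : Fin 2)) : ι × Fin 2) ≠ (m, 0) := fun h => hl (congrArg Prod.fst h)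
      have h2 : ((l, (0 : Fin 2)) : ι × Fin 2) ≠ (m, 1) := fun h => hl (congrArg Prod.fst h)
      have h3 : ((l, (1 : Fin 2)) : ι × Fin 2) ≠ (m, 0) := fun h => hl (congrArg Prod.fst h)
      have h4 : ((l, (1 : Fin 2)) : ι × Fin 2) ≠ (m, 1) := fun h => hl (congrArg Prod.fst h)
      rw [Function.update_of_ne hl, Function.update_of_ne hl, Perm.mul_apply, Perm.mul_apply,
        swap_apply_of_ne_of_ne h1 h2, swap_apply_of_ne_of_ne h3 h4]
  rw [hprod]
  simp

/-- the product of the values of the forms, as a multilinear map in the vectors -/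
noncomputable def prodM (B : ι → V →ₗ[ℝ] V →ₗ[ℝ] ℝ) :
    MultilinearMap ℝ (fun _ : ι × Fin 2 => V) ℝ :=
  MultilinearMap.mk' (fun v => ∏ m, B m (v (m, 0)) (v (m, 1)))
    (by
      intro v i x y
      obtain ⟨m, j⟩ := i
      have key : ∀ z : V, ∏ l, B l (Function.update v (m, j) z (l, 0))
          (Function.update v (m, j) z (l, 1))
          = B m (Function.update v (m, j) z (m, 0)) (Function.update v (m, j) z (m, 1))
            * ∏ l ∈ Finset.univ.erase m, B l (v (l, 0)) (v (l, 1)) := by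
        intro z
        rw [← Finset.mul_prod_erase _ _ (Finset.mem_univ m)]
        congr 1
        refine Finset.prod_congr rfl fun l hl => ?_
        have hl' : l ≠ m := Finset.ne_of_mem_erase hl
        have h1 : ∀ t : Fin 2, ((l, t) : ι × Fin 2) ≠ (m, j) := fun t h =>
          hl' (congrArg Prod.fst h)
        rw [Function.update_of_ne (h1 0), Function.update_of_ne (h1 1)]
      rw [key, key, key, ← add_mul]
      congr 1
      fin_cases j
      · simp
      · simp)
    (by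
      intro v i c x
      obtain ⟨m, j⟩ := i
      have key : ∀ z : V, ∏ l, B l (Function.update v (m, j) z (l, 0))
          (Function.update v (m, j) z (l, 1))
          = B m (Function.update v (m, j) z (m, 0)) (Function.update v (m, j) z (m, 1))
            * ∏ l ∈ Finset.univ.erase m, B l (v (l, 0)) (v (l, 1)) := by
        intro z
        rw [← Finset.mul_prod_erase _ _ (Finset.mem_univ m)]
        congr 1
        refine Finset.prod_congr rfl fun l hl => ?_
        have hl' : l ≠ m := Finset.ne_of_mem_erase hl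
        have h1 : ∀ t : Fin 2, ((l, t) : ι × Fin 2) ≠ (m, j) := fun t h =>
          hl' (congrArg Prod.fst h)
        rw [Function.update_of_ne (h1 0), Function.update_of_ne (h1 1)]
      rw [key, key, smul_eq_mul, ← mul_assoc]
      congr 1
      fin_cases j
      · simp
      · simp)

theorem prodM_apply (B : ι → V →ₗ[ℝ] V →ₗ[ℝ] ℝ) (v : ι × Fin 2 → V) :
    prodM B v = ∏ m, B m (v (m, 0)) (v (m, 1)) := rfl

/-- `pf` as an alternating map in the vectors -/
theorem alternatization_prodM (B : ι → V →ₗ[ℝ] V →ₗ[ℝ] ℝ) (v : ι × Fin 2 → V) :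
    MultilinearMap.alternatization (prodM B) v = pf v B := by
  rw [MultilinearMap.alternatization_apply]
  unfold pf
  refine Finset.sum_congr rfl fun σ _ => ?_
  rw [MultilinearMap.domDomCongr_apply, prodM_apply]
  rw [Units.smul_def, zsmul_eq_mul]

/-- the transformation law -/
theorem pf_comp (b : Module.Basis (ι × Fin 2) ℝ V) (A : V →ₗ[ℝ] V)
    (B : ι → V →ₗ[ℝ] V →ₗ[ℝ] ℝ) :
    pf b (fun m => (B m).compl₁₂ A A) = LinearMap.det A * pf b B := by
  have h1 : pf b (fun m => (B m).compl₁₂ A A) = pf (fun i => A (b i)) B := rfl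
  rw [h1, ← alternatization_prodM, ← alternatization_prodM,
    (MultilinearMap.alternatization (prodM B)).eq_smul_basis_det b]
  simp only [AlternatingMap.smul_apply, smul_eq_mul]
  have h2 := b.det_comp A b
  have h3 : b.det (fun i => A (b i)) = LinearMap.det A * b.det b := h2
  rw [h3, b.det_self]
  ring

/-- decomposable forms -/
noncomputable def tens (ξ ζ : V →ₗ[ℝ] ℝ) : V →ₗ[ℝ] V →ₗ[ℝ] ℝ :=
  (LinearMap.mul ℝ ℝ).compl₁₂ ξ ζ

@[simp] theorem tens_apply (ξ ζ : V →ₗ[ℝ] ℝ) (u w : V) : tens ξ ζ u w = ξ u * ζ w := rfl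

theorem pf_tens (e : ι × Fin 2 → V) (c : ι × Fin 2 → V →ₗ[ℝ] ℝ) :
    pf e (fun m => tens (c (m, 0)) (c (m, 1))) = Matrix.det (Matrix.of fun i j => c j (e i)) := by
  rw [Matrix.det_apply]
  unfold pf
  refine Finset.sum_congr rfl fun σ _ => ?_
  rw [Units.smul_def, zsmul_eq_mul]
  congr 1
  rw [Fintype.prod_prod_type]
  refine Finset.prod_congr rfl fun m _ => ?_
  rw [Fin.prod_univ_two]
  rfl

end Pool.Agent.Y519.AS
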