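import Mathlib
import Pool.Agent.H86.CMLib.Y519.AS.Darb

/-!
# The Pfaffian of a nondegenerate form does not vanish, part 2
-/

open Equiv Finset Module
open scoped Kronecker

namespace Pool.Agent.Y519.AS

section
variable {ι : Type*} [Fintype ι] [DecidableEq ι] {V : Type*} [AddCommGroup V] [Module ℝ V]

theorem pf_skew (e : ι × Fin 2 → V) (C : V →ₗ[ℝ] V →ₗ[ℝ] ℝ) :
    pf e (fun _ => C - C.flip) = 2 ^ Fintype.card ι * pf e (fun _ => C) := by
  have step : ∀ s : Finset ι, pf e (fun m => if m ∈ s then (2 : ℝ) • C else C - C.flip)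
      = pf e (fun _ => C - C.flip) := by
    intro s
    induction s using Finset.induction_on with
    | empty => simp
    | insert a s has ih =>
      rw [← ih]
      set B : ι → V →ₗ[ℝ] V →ₗ[ℝ] ℝ := fun m => if m ∈ s then (2 : ℝ) • C else C - C.flip with hB
      have h1 : (fun m => if m ∈ insert a s then (2 : ℝ) • C else C - C.flip)
          = Function.update B a ((2 : ℝ) • C) := by
        funext m
        by_cases hm : m = a
        · subst hm; simp
        · rw [Function.update_of_ne hm]
          simp [hB, hm]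
      have h2 : B = Function.update B a (C - C.flip) := by
        have : B a = C - C.flip := by simp [hB, has]
        rw [← this, Function.update_eq_self]
      rw [h1]
      conv_rhs => rw [h2]
      rw [pf_update_sub, pf_update_flip, pf_update_smul]
      ring
  have h := step Finset.univ
  simp only [Finset.mem_univ, if_true] at h
  rw [← h, ← pfM_apply, ← pfM_apply]
  have h3 := (pfM e).map_smul_univ (fun _ => (2 : ℝ)) (fun _ => C)
  rw [h3]
  simp

end

variable {k : ℕ} {V : Type} [AddCommGroup V] [Module ℝ V]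

theorem pf_std_pos (b : Basis (Fin k × Fin 2) ℝ V) :
    0 < pf b (fun _ => ∑ m, tens (b.coord (m, 0)) (b.coord (m, 1))) := by
  rw [← pfM_apply]
  have h1 := (pfM (b : Fin k × Fin 2 → V)).map_sum
    (fun (_ : Fin k) (m : Fin k) => tens (b.coord (m, 0)) (b.coord (m, 1)))
  rw [h1]
  have h2 : ∀ r : Fin k → Fin k, pfM (b : Fin k × Fin 2 → V)
      (fun i => tens (b.coord (r i, 0)) (b.coord (r i, 1)))
      = (Matrix.det (Matrix.of fun i j : Fin k => if i = r j then (1 : ℝ) else 0)) ^ 2 := by
    intro r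
    rw [pfM_apply]
    have h3 := pf_tens (b : Fin k × Fin 2 → V) (fun y => b.coord (r y.1, y.2))
    simp only at h3
    rw [h3]
    have h4 : (Matrix.of fun i j : Fin k × Fin 2 => b.coord (r j.1, j.2) (b i))
        = (Matrix.of fun i j : Fin k => if i = r j then (1 : ℝ) else 0) ⊗ₖ
          (1 : Matrix (Fin 2) (Fin 2) ℝ) := by
      ext ⟨i, i'⟩ ⟨j, j'⟩
      rw [Matrix.kroneckerMap_apply, Matrix.of_apply, Matrix.of_apply, Basis.coord_apply,
        Basis.repr_self, Finsupp.single_apply, Matrix.one_apply]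
      by_cases h5 : i = r j
      · by_cases h6 : i' = j'
        · simp [h5, h6]
        · simp [h5, h6]
      · simp [h5]
    rw [h4, Matrix.det_kronecker]
    simp
  simp only [h2]
  refine Finset.sum_pos' (fun r _ => sq_nonneg _) ⟨id, Finset.mem_univ _, ?_⟩
  have h7 : (Matrix.of fun i j : Fin k => if i = id j then (1 : ℝ) else 0) = 1 := by
    ext i j
    simp [Matrix.one_apply]
  rw [h7]
  simp

variable [FiniteDimensional ℝ V]

theorem pf_ne_zero (e : Basis (Fin k × Fin 2) ℝ V) (ω : V →ₗ[ℝ] V →ₗ[ℝ] ℝ)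
    (halt : ∀ v, ω v v = 0) (hnd : ∀ u, (∀ v, ω u v = 0) → u = 0) :
    pf e (fun _ => ω) ≠ 0 := by
  have hdim : finrank ℝ V = 2 * k := by
    rw [finrank_eq_card_basis e, Fintype.card_prod, Fintype.card_fin, Fintype.card_fin, mul_comm]
  obtain ⟨b, hb⟩ := exists_basis ω halt hnd hdim
  have hω : ω = (∑ m, tens (b.coord (m, 0)) (b.coord (m, 1)))
      - (∑ m, tens (b.coord (m, 0)) (b.coord (m, 1))).flip := by
    refine b.ext fun x => b.ext fun y => ?_
    rw [hb]
    obtain ⟨m, i⟩ := x
    obtain ⟨m', i'⟩ := y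
    simp only [LinearMap.sub_apply, LinearMap.flip_apply, LinearMap.sum_apply, tens_apply,
      Basis.coord_apply, Basis.repr_self, Finsupp.single_apply, Prod.mk.injEq]
    unfold Jst
    by_cases hm : m = m'
    · subst hm
      fin_cases i <;> fin_cases i' <;> simp
    · have h1 : ∀ x : Fin k, ¬ (m = x ∧ m' = x) := fun x h => hm (h.1.trans h.2.symm)
      have h2 : ∀ (x : Fin k) (P Q : Prop) [Decidable P] [Decidable Q],
          (if m = x ∧ P then (1 : ℝ) else 0) * (if m' = x ∧ Q then (1 : ℝ) else 0) = 0 := by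
        intro x P Q _ _
        by_cases h3 : m = x
        · have h4 : ¬ m' = x := fun h => h1 x ⟨h3, h⟩
          simp [h4]
        · simp [h3]
      have h2' : ∀ (x : Fin k) (P Q : Prop) [Decidable P] [Decidable Q],
          (if m' = x ∧ P then (1 : ℝ) else 0) * (if m = x ∧ Q then (1 : ℝ) else 0) = 0 := by
        intro x P Q _ _
        rw [mul_comm]
        exact h2 x Q P
      simp only [h2, h2', Finset.sum_const_zero, sub_zero, if_neg hm]
  have h1 : pf b (fun _ => ω) ≠ 0 := by
    have h2 := pf_skew (b : Fin k × Fin 2 → V) (∑ m, tens (b.coord (m, 0)) (b.coord (m, 1)))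
    rw [← hω] at h2
    rw [h2]
    have h3 := pf_std_pos b
    positivity
  intro h0
  apply h1
  -- change of basis
  let A : V →ₗ[ℝ] V := (b.equiv e (Equiv.refl _)).symm.toLinearMap
  have hA : ∀ i, A (e i) = b i := by
    intro i
    change (b.equiv e (Equiv.refl _)).symm (e i) = b i
    rw [LinearEquiv.symm_apply_eq, Basis.equiv_apply]
    rfl
  have h5 := pf_comp e A (fun _ => ω)
  rw [h0, mul_zero] at h5
  rw [← h5]
  unfold pf
  refine Finset.sum_congr rfl fun σ _ => ?_
  congr 1
  refine Finset.prod_congr rfl fun m _ => ?_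
  rw [LinearMap.compl₁₂_apply, hA, hA]

end Pool.Agent.Y519.AS
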